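import Mathlib
import Pool.Agent.Run7.h115.HK.Fin
import Pool.Agent.Run7.h115.HK.W12
import Pool.Agent.Run7.h803.HK.C
import Pool.Agent.Run7.h803.HK.N1
import Pool.Agent.Run7.h593.HK.N2
import Pool.Agent.Run7.h593.HK.K2
import Pool.Agent.Run7.h662.HK.K1
import Pool.Agent.Run7.h682.HK.A1
import Pool.Agent.Run7.h682.HK.A2
import Pool.Agent.Run7.h771.HK.V1
import Pool.Agent.Run7.h771.HK.V2
import Pool.Agent.Run7.h771.HK.V3

/-!
# Uniform PI and QL bounds do not imply the convergence of the heat kernels

The spaces are the weighted lines `X_N = (ℝ, |·|, w_N dx)`, `w_N` the square wave with the values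
`1` and `2` and the period `1 / (N + 1)`; they converge to `X = (ℝ, |·|, (3/2) dx)`. The heat
kernels exist (the semigroup `exp (t (1 - (J J*)⁻¹))`, `J` the embedding of the Sobolev space into
`L²`, by the continuous functional calculus, and the one-dimensional Sobolev embedding), and they do
not converge to the heat kernel of `X`: if they did, the equation for the pairings of the heat flow
of `X_N` with the functions `F ∘ g_N`, `g_N' = 1 / w_N`, whose Laplacian is `F'' (g_N) / w_N²`,
would give in the limit the evolution with the conductivity `4 / 3` (the harmonic mean) instead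
of `3 / 2`.

Authors: helper115 (plan, statement, negative part, square waves, assembly), helper682 (the
semigroup), helper803 (limits of integrals, the Laplacian of the test functions), helper662 (the
kernel), helper593 (contraction, evolution, the heat flow), helper771 (the Sobolev space, density,
evaluation).
-/

open Pool.Agent.N288.MM Run7.h115.HK

namespace Pool.Agent.Results.MP_a99579_gt.KernelsDoNotConverge

/-- **Q2, negative answer.** There is a pmGH convergent sequence of infinitesimally Hilbertian
spaces, with a uniform local doubling and Poincaré inequality and with a uniform quantitative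
Lipschitz (QL) bound for harmonic functions, all satisfied by the limit space too, such that all
the spaces have heat kernels, and the heat kernels of the sequence do not converge to the heat kernel
of the limit space. -/
theorem result : ∃ (S : ℕ → Space) (T : Space) (s : ∀ i, (S i).X) (t : T.X) (P : PMGH S T s t)
    (cv cp ch : ℝ → ℝ) (Λ : ℝ),
    1 ≤ Λ ∧ (∀ R, 0 < R → 1 ≤ cv R ∧ 1 ≤ cp R ∧ 1 ≤ ch R) ∧
    (∀ i, IH (S i) ∧ PI (S i) cv cp Λ ∧ QL (S i) ch) ∧ (IH T ∧ PI T cv cp Λ ∧ QL T ch) ∧
    (∀ i, ∃ p, IsHeatKernel (S i) p) ∧ (∃ q, IsHeatKernel T q) ∧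
    ∀ (p : ∀ i, ℝ → (S i).X → (S i).X → ℝ) (q : ℝ → T.X → T.X → ℝ),
      (∀ i, IsHeatKernel (S i) (p i)) → IsHeatKernel T q → ¬ KernelsConverge P p q :=
  main t_W1 t_W2 (Run7.h803.HK.t_C t_W2) Run7.h803.HK.t_N1 Run7.h593.HK.t_N2 Run7.h593.HK.t_N3
    (Run7.h682.HK.t_A2 Run7.h682.HK.t_A1) Run7.h771.HK.t_V1 Run7.h771.HK.t_V2 Run7.h771.HK.t_V3
    Run7.h662.HK.t_K1 Run7.h593.HK.t_K2

end Pool.Agent.Results.MP_a99579_gt.KernelsDoNotConverge
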